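import Pool.Agent.helper2.BB.Spec

/-!
# Project bb, module A3 (helper78): time derivatives of the one dimensional flow
-/

set_option autoImplicit false

namespace BB

open Metric MeasureTheory Set Filter Topology Asymptotics
open Pool.Agent.helper37.PR

theorem A3 (h1 : A1_stmt) : A3_stmt := by
  intro w t hw ht
  have hq0 : 0 < Real.exp (-t) := Real.exp_pos _
  have hq1 : Real.exp (-t) ≤ 1 := Real.exp_le_one_iff.2 (by linarith)
  obtain ⟨-, -, -, hsl, -, hQ2, hQ4, -, h1w, -⟩ := h1 (Real.exp (-t)) w hq0 hq1 hw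
  set q : ℝ := Real.exp (-t) with hq
  set Q : ℂ := Qf q w with hQ
  set P : ℂ := psi q w with hP
  have hb0 : Bs q w ≠ 0 := Complex.slitPlane_ne_zero hsl
  have hQ0 : Q ≠ 0 := by
    intro h
    rw [h] at hQ2
    norm_num at hQ2
  have hQ21 : Q ^ 2 + 1 ≠ 0 := by
    intro h
    have h2 : (Q ^ 2 + 1).re = 0 := by rw [h]; rfl
    rw [Complex.add_re, Complex.one_re] at h2
    linarith
  have hPdef : P = (Q ^ 2 - 1) / (Q ^ 2 + 1) := rfl
  have hP1 : 1 + P = 2 * Q ^ 2 / (Q ^ 2 + 1) := by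
    rw [hPdef]
    field_simp
    ring
  have hP2 : 1 - P = 2 / (Q ^ 2 + 1) := by
    rw [hPdef]
    field_simp
    ring
  have e0 : HasDerivAt (fun τ : ℝ => ((Real.exp (-τ) : ℝ) : ℂ)) (-(q : ℂ)) t := by
    have h2 : HasDerivAt (fun τ : ℝ => Real.exp (-τ)) (Real.exp (-t) * (-1)) t :=
      (Real.hasDerivAt_exp (-t)).comp t (hasDerivAt_neg t)
    have h3 := h2.ofReal_comp
    refine h3.congr_deriv ?_
    rw [← hq, mul_neg, mul_one, Complex.ofReal_neg]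
  have e1 : HasDerivAt (fun τ : ℝ => Bs (Real.exp (-τ)) w) (-(Bs q w - 1)) t := by
    have h2 := (e0.mul_const (Sg w ^ 2 - 1)).const_add 1
    refine h2.congr_deriv ?_
    unfold Bs
    ring
  have hc : Bs q w ^ ((1 / 4 : ℂ) - 1) = Q / Q ^ 4 := by
    rw [Complex.cpow_sub _ _ hb0, Complex.cpow_one, hQ4]
    rfl
  have e2 : HasDerivAt (fun τ : ℝ => Qf (Real.exp (-τ)) w) (-(Q * (P / (1 + P) ^ 2))) t := by
    have h2 : HasDerivAt (fun z : ℂ => z ^ (1 / 4 : ℂ)) ((1 / 4 : ℂ) * Bs q w ^ ((1 / 4 : ℂ) - 1) * 1)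
        (Bs q w) := (hasDerivAt_id (Bs q w)).cpow_const hsl
    have h3 := h2.comp t e1
    refine h3.congr_deriv ?_
    rw [hc, ← hQ4, hP1, hPdef]
    field_simp
    ring
  have e3 : HasDerivAt (fun τ : ℝ => psi (Real.exp (-τ)) w) (-(P * pp P)) t := by
    have h2 := ((e2.pow 2).sub_const 1).div ((e2.pow 2).add_const 1) hQ21
    refine h2.congr_deriv ?_
    have hpp : pp P = 1 / Q ^ 2 := by
      unfold pp
      rw [hP1, hP2]
      field_simp
    show (((2 : ℕ) : ℂ) * Q ^ 1 * -(Q * (P / (1 + P) ^ 2)) * (Q ^ 2 + 1) -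
      (Q ^ 2 - 1) * (((2 : ℕ) : ℂ) * Q ^ 1 * -(Q * (P / (1 + P) ^ 2)))) / (Q ^ 2 + 1) ^ 2 =
      -(P * pp P)
    rw [hpp, hP1, hPdef]
    push_cast
    field_simp
    ring
  refine ⟨e2, e3, ?_⟩
  have h2 := e0.mul (((e3.const_sub 1).div_const (1 - w)).pow 2)
  refine h2.congr_deriv ?_
  have hP3 : 1 + P ≠ 0 := by
    rw [hP1]
    exact div_ne_zero (mul_ne_zero two_ne_zero (pow_ne_zero 2 hQ0)) hQ21
  have hs : sc q w = (q : ℂ) * ((1 - P) / (1 - w)) ^ 2 := rfl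
  show -(q : ℂ) * ((1 - P) / (1 - w)) ^ 2 + (q : ℂ) * (((2 : ℕ) : ℂ) * ((1 - P) / (1 - w)) ^ 1 *
    (- -(P * pp P) / (1 - w))) = -(sc q w * pp P)
  rw [hs]
  unfold pp
  push_cast
  field_simp
  ring

end BB
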